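import Pool.Agent.Helper21.SG.B.Main

/-! Centralisers of elements of finite order. -/

namespace Pool.Agent.Helper21.SG

open SimpleGraph Function MulAction

theorem mem_cen {G : Type} [Group G] {r g : G} : g ∈ cen r ↔ g * r = r * g := by
  rw [Subgroup.mem_centralizer_singleton_iff]

theorem trace_cen {G L : Type} [Group G] [Group L] {f : L →* G} (hf : Injective f) {r : L}
    {ρ g : G} (h : g * ρ * g⁻¹ = f r) : trace (cen ρ) f g = cen r := by
  ext x
  rw [mem_trace, mem_cen, mem_cen]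
  have h0 : ρ = g⁻¹ * f r * g := by
    rw [← h]
    group
  constructor
  · intro h1
    apply hf
    rw [map_mul, map_mul]
    calc f x * f r = g * ((g⁻¹ * f x * g) * (g⁻¹ * f r * g)) * g⁻¹ := by group
      _ = g * ((g⁻¹ * f r * g) * (g⁻¹ * f x * g)) * g⁻¹ := by rw [← h0, h1]
      _ = f r * f x := by group
  · intro h1
    have h2 : f x * f r = f r * f x := by rw [← map_mul, h1, map_mul]
    rw [h0]
    calc g⁻¹ * f x * g * (g⁻¹ * f r * g) = g⁻¹ * (f x * f r) * g := by group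
      _ = g⁻¹ * (f r * f x) * g := by rw [h2]
      _ = _ := by group

theorem trace_top {G L : Type} [Group G] [Group L] (f : L →* G) (g : G) :
    trace ⊤ f g = ⊤ := by
  rw [trace, Subgroup.comap_top]

/-- Reduction to groups whose splittings are not seen by given subgroups, and in which reflections
are isolated. -/
theorem isolated (G : Type) [Group G] (𝒦 : Set (Subgroup G)) (h𝒦 : 𝒦.Finite)
    (hfg : ∀ K ∈ 𝒦, K.FG)
    (hB : ∀ K ∈ 𝒦, ∃ B : ℕ, ∀ F : Subgroup G, F ≤ K → Finite F → Nat.card F ≤ B)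
    (hns : ¬ StronglyAccessible FinVZ G) :
    ∃ (H : Type) (_ : Group H) (f : H →* G), Iter G H f ∧ ¬ StronglyAccessible FinVZ H ∧
      ∀ (L : Type) [Group L] (p : L →* H), Iter H L p → ¬ StronglyAccessible FinVZ L →
        (∀ S : Splitting FinVZ L, ∀ K ∈ 𝒦, ¬ Sees K (f.comp p) S) ∧
        (⊤ ∈ 𝒦 → Infinite L ∧ ¬ Splits FinC L) ∧
        (TameTorsion G → ∀ S : Splitting FinVZ L, ¬ CenSplits S) := by
  classical
  obtain ⟨𝒬, h𝒬, h𝒬fg, h𝒬B, hcen⟩ : ∃ 𝒬 : Set (Subgroup G), 𝒬.Finite ∧ (∀ K ∈ 𝒬, K.FG) ∧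
      (∀ K ∈ 𝒬, ∃ B : ℕ, ∀ F : Subgroup G, F ≤ K → Finite F → Nat.card F ≤ B) ∧
      (TameTorsion G → ∀ g : G, IsOfFinOrder g → ∃ r, cen r ∈ 𝒬 ∧ IsConj g r) := by
    by_cases hT : TameTorsion G
    · obtain ⟨⟨B, hB'⟩, ⟨F, hF, hF'⟩, hc⟩ := hT
      refine ⟨(fun r => cen r) '' (F ∩ {r | IsOfFinOrder r}),
        (hF.subset Set.inter_subset_left).image _, ?_, fun K _ => ⟨B, fun F' _ hF' => hB' F' hF'⟩,
        fun _ g hg => ?_⟩
      · rintro K ⟨r, hr, rfl⟩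
        exact hc r hr.2
      · obtain ⟨r, hr, hconj⟩ := hF' g hg
        exact ⟨r, ⟨r, ⟨hr, hconj.isOfFinOrder hg⟩, rfl⟩, hconj⟩
    · exact ⟨∅, Set.finite_empty, fun K hK => absurd hK (Set.notMem_empty K),
        fun K hK => absurd hK (Set.notMem_empty K), fun h => absurd h hT⟩
  obtain ⟨H, hH, f, hGH, hns', hun⟩ := unseen G (𝒦 ∪ 𝒬) (h𝒦.union h𝒬) (by
    rintro K (hK | hK)
    · exact hfg K hK
    · exact h𝒬fg K hK) (by
    rintro K (hK | hK)
    · exact hB K hK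
    · exact h𝒬B K hK) hns
  refine ⟨H, hH, f, hGH, hns', fun L _ p hHL hL => ⟨fun S K hK => hun L p hHL hL S K (Or.inl hK),
    fun htop => ⟨?_, ?_⟩, fun hT => ?_⟩⟩
  · by_contra h
    have : Finite L := not_infinite_iff_finite.1 h
    exact hL sa_of_finite
  · rintro ⟨S⟩
    let S' : Splitting FinVZ L := { S with edge := fun u v huv => Or.inl (S.edge u v huv) }
    refine hun L p hHL hL S' ⊤ (Or.inl htop) ⟨1, Or.inl ⟨fun v => ?_, fun u v huv => ?_,
      fun h => ?_⟩⟩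
    · obtain ⟨l, hl⟩ := S.nofix v
      exact ⟨l, by rw [trace_top]; trivial, hl⟩
    · rw [trace_top, top_inf_eq]
      exact S.edge u v huv
    · rw [trace_top] at h
      exact hL (sa_congr subClosed_finVZ (Subgroup.topEquiv (G := L)).symm (sa_of_vFree h))
  · rintro S ⟨r, u, v, hr, huv, h1, h2, h3⟩
    have hf : Injective (f.comp p) := (hGH.trans hHL).injective
    have hfr : IsOfFinOrder ((f.comp p) r) := MonoidHom.isOfFinOrder (f.comp p) hr
    obtain ⟨ρ, hρ, hconj⟩ := hcen hT _ hfr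
    obtain ⟨g, hg⟩ := isConj_iff.1 hconj.symm
    have ht := trace_cen hf hg
    refine hun L p hHL hL S (cen ρ) (Or.inr hρ) ⟨g, Or.inr ⟨u, v, huv, ?_⟩⟩
    rw [ht]
    exact ⟨h1, h2, h3⟩

/-- The theorem. -/
theorem subgroup_splittings :
    (∀ (G : Type) [Group G] (K : Subgroup G) (d B k : ℕ) (s : Fin d → G),
      Subgroup.closure (Set.range s) = K →
      (∀ F : Subgroup G, F ≤ K → Finite F → Nat.card F ≤ B) →
      RunSeen K G (MonoidHom.id G) k → k ≤ B * (d - 1)) ∧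
    (∀ (G : Type) [Group G] (𝒦 : Set (Subgroup G)), 𝒦.Finite → (∀ K ∈ 𝒦, K.FG) →
      (∀ K ∈ 𝒦, ∃ B : ℕ, ∀ F : Subgroup G, F ≤ K → Finite F → Nat.card F ≤ B) →
      ¬ StronglyAccessible FinVZ G →
      ∃ (H : Type) (_ : Group H) (f : H →* G), Iter G H f ∧ ¬ StronglyAccessible FinVZ H ∧
        ∀ (L : Type) [Group L] (p : L →* H), Iter H L p → ¬ StronglyAccessible FinVZ L →
          (∀ S : Splitting FinVZ L, ∀ K ∈ 𝒦, ¬ Sees K (f.comp p) S) ∧
          (⊤ ∈ 𝒦 → Infinite L ∧ ¬ Splits FinC L) ∧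
          (TameTorsion G → ∀ S : Splitting FinVZ L, ¬ CenSplits S)) :=
  ⟨fun _ _ K d B k s hs hB h => runSeen_bound K d B k s hs hB h,
    fun G _ 𝒦 h𝒦 hfg hB hns => isolated G 𝒦 h𝒦 hfg hB hns⟩

end Pool.Agent.Helper21.SG
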