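import Pool.Agent.Helper21.SG.B.WtInv
import Pool.Agent.Helper21.SG.B.Restrict
import Pool.Agent.Helper21.SG.B.IsoDefs

/-! The decrease of the weight for a finitely generated subgroup acting on the tree of a splitting. -/

namespace Pool.Agent.Helper21.SG

open SimpleGraph Function MulAction

variable {Γ : Type} [Group Γ] {H : Type} [Group H]

/-- Finitely many vertices in distinct orbits can be completed to a set of representatives. -/
theorem exists_reps_extend (S : Splitting FinVZ H) (W : Finset S.V)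
    (hW : ∀ w ∈ W, ∀ w' ∈ W, ∀ g : H, g • w = w' → w = w') :
    ∃ R : Finset S.V, (∀ v : S.V, ∃! r, r ∈ R ∧ ∃ g : H, g • v = r) ∧ W ⊆ R := by
  classical
  obtain ⟨v0⟩ : Nonempty S.V := S.tree.connected.nonempty
  obtain ⟨R, hR, -⟩ := exists_reps_finset S v0
  refine ⟨W ∪ R.filter fun r => ∀ w ∈ W, ∀ g : H, g • r ≠ w, fun v => ?_,
    Finset.subset_union_left⟩
  by_cases hv : ∃ w ∈ W, ∃ g : H, g • v = w
  · obtain ⟨w, hw, g, hg⟩ := hv
    refine ⟨w, ⟨Finset.mem_union_left _ hw, g, hg⟩, ?_⟩
    rintro r ⟨hr, g', hg'⟩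
    have h1 : (g * g'⁻¹) • r = w := by rw [← hg', mul_smul, inv_smul_smul, hg]
    rcases Finset.mem_union.1 hr with hr | hr
    · exact hW r hr w hw _ h1
    · exact absurd h1 ((Finset.mem_filter.1 hr).2 w hw _)
  · push Not at hv
    obtain ⟨r, ⟨hr, g, hg⟩, hu⟩ := hR v
    refine ⟨r, ⟨Finset.mem_union_right _ (Finset.mem_filter.2 ⟨hr, ?_⟩), g, hg⟩, ?_⟩
    · intro w hw g' hg'
      refine hv w hw (g' * g) ?_
      rw [mul_smul, hg, hg']
    · rintro r' ⟨hr', g', hg'⟩
      rcases Finset.mem_union.1 hr' with hr' | hr'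
      · exact absurd hg' (hv r' hr' g')
      · exact hu r' ⟨(Finset.mem_filter.1 hr').1, g', hg'⟩

/-- The stabiliser in a subgroup. -/
theorem exists_stab_equiv {S : Splitting FinVZ H} {C : Subgroup H} {S' : Splitting FinVZ C}
    {ι : S'.V → S.V} (hι : Injective ι) (he : ∀ (c : C) (x : S'.V), ι (c • x) = C.subtype c • ι x)
    (x : S'.V) : ∃ e : stabilizer C x ≃* ↥(C ⊓ stabilizer H (ι x)),
      ∀ k, (e k : H) = ((k : C) : H) := by
  have h1 : ∀ k : stabilizer C x, ((k : C) : H) ∈ C ⊓ stabilizer H (ι x) := by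
    intro k
    refine ⟨k.1.2, ?_⟩
    have h2 : k.1 • x = x := k.2
    have h3 := he k.1 x
    rw [h2] at h3
    exact h3.symm
  let φ : stabilizer C x →* ↥(C ⊓ stabilizer H (ι x)) :=
    (C.subtype.comp (stabilizer C x).subtype).codRestrict _ h1
  have hφ : Bijective φ := by
    constructor
    · intro a b hab
      have h2 : ((a : C) : H) = ((b : C) : H) := congrArg (fun z : ↥(C ⊓ stabilizer H (ι x)) => (z : H)) hab
      exact Subtype.ext (Subtype.ext h2)
    · rintro ⟨k, hk, hk'⟩
      refine ⟨⟨⟨k, hk⟩, hι ?_⟩, rfl⟩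
      rw [he]
      exact hk'
  exact ⟨MulEquiv.ofBijective φ hφ, fun k => rfl⟩

theorem infl (L : Subgroup H) (M : Subgroup H) : L ⊓ M ≤ L := inf_le_left

/-- The weight of the intersection of `L` and a vertex group. -/
noncomputable def wv {S : Splitting FinVZ H} {L : Subgroup H} (φ : L →* Γ) (w : S.V) : ℝ :=
  wt (φ.comp (Subgroup.inclusion (infl L (stabilizer H w))))

/-- The decrease of the weight for a subgroup `L` and vertices in distinct orbits of `L`. -/
theorem sub_ineq (S : Splitting FinVZ H) (L : Subgroup H) [hL : Group.FG L] {φ : L →* Γ}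
    (hφ : Injective φ) {B : ℕ} (hB : ∀ F : Subgroup Γ, Finite F → Nat.card F ≤ B)
    (W : Finset S.V) (hW : ∀ w ∈ W, ∀ w' ∈ W, ∀ c ∈ L, c • w = w' → w = w')
    (P : Prop) [Decidable P] (hP : P → ActsOverFinite S L) :
    (∀ w ∈ W, Group.FG ↥(L ⊓ stabilizer H w)) ∧
    ∑ w ∈ W, wv φ w + (if P then (B : ℝ)⁻¹ else 0) ≤ wt φ := by
  classical
  have hB0 : (0 : ℝ) ≤ (B : ℝ)⁻¹ := by positivity
  have hinj : ∀ w : S.V, Injective (φ.comp (Subgroup.inclusion (infl L (stabilizer H w)))) :=
    fun w => hφ.comp (Subgroup.inclusion_injective _)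
  by_cases hfix : ∃ v0 : S.V, ∀ c ∈ L, c • v0 = v0
  · obtain ⟨v0, hv0⟩ := hfix
    have hle : L ≤ stabilizer H v0 := fun c hc => hv0 c hc
    have hC : ∀ w, w ≠ v0 → FinVZ ↥(L ⊓ stabilizer H w) := by
      intro w hw
      refine two_fixed subClosed_finVZ S (L ⊓ stabilizer H w).subtype Subtype.val_injective hw
        (fun h => h.2.2) (fun h => hv0 _ h.2.1)
    have h0 : L ⊓ stabilizer H v0 = L := inf_eq_left.2 hle
    have hnP : ¬ P := by
      intro hp
      rcases hP hp with ⟨h1, -⟩ | ⟨u, v, huv, h1, h2, h3⟩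
      · obtain ⟨l, hl, h⟩ := h1 v0
        exact h (hv0 l hl)
      · rcases toward_or S.tree huv v0 with h4 | h4
        · by_cases hu : u = v0
          · subst hu
            have h5 : L ⊓ (stabilizer H u ⊓ stabilizer H v) = L ⊓ stabilizer H v := by
              rw [← inf_assoc, h0]
            rw [h5] at h1
            exact not_finite ↥(L ⊓ stabilizer H v)
          · have h5 : L ⊓ stabilizer H u ≤ L ⊓ (stabilizer H u ⊓ stabilizer H v) := by
              rintro x ⟨hx1, hx2⟩
              refine ⟨hx1, hx2, ?_⟩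
              have h6 := fix_toward S (g := x) hx2 (hv0 x hx1)
              rw [h4] at h6
              exact h6
            have := Finite.of_injective _ (Subgroup.inclusion_injective h5)
            exact not_finite ↥(L ⊓ stabilizer H u)
        · by_cases hv : v = v0
          · subst hv
            have h5 : L ⊓ (stabilizer H u ⊓ stabilizer H v) = L ⊓ stabilizer H u := by
              rw [inf_comm (stabilizer H u), ← inf_assoc, h0]
            rw [h5] at h1
            exact not_finite ↥(L ⊓ stabilizer H u)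
          · have h5 : L ⊓ stabilizer H v ≤ L ⊓ (stabilizer H u ⊓ stabilizer H v) := by
              rintro x ⟨hx1, hx2⟩
              refine ⟨hx1, ?_, hx2⟩
              have h6 := fix_toward S (g := x) hx2 (hv0 x hx1)
              rw [h4] at h6
              exact h6
            have := Finite.of_injective _ (Subgroup.inclusion_injective h5)
            exact not_finite ↥(L ⊓ stabilizer H v)
    have hfg0 : Group.FG ↥(L ⊓ stabilizer H v0) := by
      rw [h0]
      exact hL
    refine ⟨fun w _ => ?_, ?_⟩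
    · by_cases hw : w = v0
      · rw [hw]
        exact hfg0
      · exact fg_finVZ _ (hC w hw)
    · rw [if_neg hnP, add_zero]
      have h1 : ∀ w, w ≠ v0 → wv φ w = 0 := fun w hw => wt_of_finVZ (hinj w) (hC w hw)
      have h2 : wv φ v0 = wt φ := by
        let e : L ≃* ↥(L ⊓ stabilizer H v0) := MulEquiv.subgroupCongr h0.symm
        refine wt_congr e 1 fun k => ?_
        rw [one_mul, inv_one, mul_one]
        rfl
      by_cases hm : v0 ∈ W
      · rw [Finset.sum_eq_single_of_mem v0 hm fun w _ hw => h1 w hw, h2]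
      · rw [Finset.sum_eq_zero fun w hw => h1 w (fun h => hm (h ▸ hw))]
        exact wt_nonneg hφ
  · -- the edge of `P`
    have hP' : ∃ (E : Set S.V), E.Finite ∧ (P → ((∀ u v, S.T.Adj u v →
        Finite ↥(L ⊓ (stabilizer H u ⊓ stabilizer H v))) ∧ ¬ VFree L) ∨
        ∃ u v, u ∈ E ∧ v ∈ E ∧ S.T.Adj u v ∧
          Finite ↥(L ⊓ (stabilizer H u ⊓ stabilizer H v)) ∧
          Infinite ↥(L ⊓ stabilizer H u) ∧ Infinite ↥(L ⊓ stabilizer H v)) := by
      by_cases hp : P
      · rcases hP hp with h | ⟨u, v, h⟩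
        · exact ⟨∅, Set.finite_empty, fun _ => Or.inl h.2⟩
        · exact ⟨{u, v}, Set.toFinite _, fun _ => Or.inr ⟨u, v, by simp, by simp, h⟩⟩
      · exact ⟨∅, Set.finite_empty, fun h => absurd h hp⟩
    obtain ⟨E, hE, hPE⟩ := hP'
    have hno : ∀ v : S.V, ∃ h : L, L.subtype h • v ≠ v := by
      intro v
      by_contra hcon
      push Not at hcon
      exact hfix ⟨v, fun c hc => hcon ⟨c, hc⟩⟩
    obtain ⟨S', ι, hι, he, hr, ha⟩ := exists_restrict' subClosed_finVZ S L.subtype
      Subtype.val_injective hno (↑W ∪ E) ((Finset.finite_toSet W).union hE)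
    have hWr : ∀ w ∈ W, ∃ x, ι x = w := fun w hw => hr (Or.inl hw)
    have hne : Nonempty S'.V := S'.tree.connected.nonempty
    choose! ξ hξ using hWr
    have hξi : ∀ w ∈ W, ∀ w' ∈ W, ξ w = ξ w' → w = w' := fun w hw w' hw' h => by
      rw [← hξ w hw, h, hξ w' hw']
    obtain ⟨R, hR, hWR⟩ := exists_reps_extend S' (W.image ξ) (by
      intro x hx x' hx' g hg
      obtain ⟨w, hw, rfl⟩ := Finset.mem_image.1 hx
      obtain ⟨w', hw', rfl⟩ := Finset.mem_image.1 hx'
      have h1 : (g : H) • w = w' := by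
        have h2 := he g (ξ w)
        rw [hg, hξ w hw, hξ w' hw'] at h2
        exact h2.symm
      rw [hW w hw w' hw' g g.2 h1])
    have hfg : ∀ x : S'.V, Group.FG (stabilizer L x) := fun x => stab_fg fg_finVZ S' x
    have heq : ∀ w ∈ W, Group.FG ↥(L ⊓ stabilizer H w) ∧ wv φ w =
        wt (φ.comp (stabilizer L (ξ w)).subtype) := by
      intro w hw
      have h := exists_stab_equiv hι he (ξ w)
      rw [hξ w hw] at h
      obtain ⟨e, he'⟩ := h
      have := hfg (ξ w)
      refine ⟨Group.fg_of_surjective (f := e.toMonoidHom) e.surjective, ?_⟩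
      refine wt_congr e 1 fun k => ?_
      rw [one_mul, inv_one, mul_one]
      show φ (Subgroup.inclusion (infl L (stabilizer H w)) (e k)) = φ (k : L)
      congr 1
      exact Subtype.ext (he' k)
    refine ⟨fun w hw => (heq w hw).1, ?_⟩
    have h3 := wt_ineq S' hφ hB R hR
    have h4 : ∑ w ∈ W, wv φ w ≤ ∑ x ∈ R, wt (φ.comp (stabilizer L x).subtype) := by
      rw [Finset.sum_congr rfl fun w hw => (heq w hw).2]
      rw [← Finset.sum_image (f := fun x => wt (φ.comp (stabilizer L x).subtype)) hξi]
      refine Finset.sum_le_sum_of_subset_of_nonneg hWR fun x _ _ => ?_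
      have := hfg x
      exact wt_nonneg (comp_subtype_inj hφ _)
    have hfinE : ∀ x y : S'.V, Finite ↥(L ⊓ (stabilizer H (ι x) ⊓ stabilizer H (ι y))) →
        Finite ↥(stabilizer L x ⊓ stabilizer L y) := by
      intro x y hfin
      have h9 : ∀ k : ↥(stabilizer L x ⊓ stabilizer L y),
          ((k : L) : H) ∈ L ⊓ (stabilizer H (ι x) ⊓ stabilizer H (ι y)) := by
        rintro ⟨k, hk1, hk2⟩
        refine ⟨k.2, ?_, ?_⟩
        · have h10 := he k x
          rw [show k • x = x from hk1] at h10
          exact h10.symm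
        · have h10 := he k y
          rw [show k • y = y from hk2] at h10
          exact h10.symm
      refine Finite.of_injective (fun k => (⟨_, h9 k⟩ :
        ↥(L ⊓ (stabilizer H (ι x) ⊓ stabilizer H (ι y))))) fun a b hab => ?_
      have h11 : ((a : L) : H) = ((b : L) : H) := congrArg
        (fun z : ↥(L ⊓ (stabilizer H (ι x) ⊓ stabilizer H (ι y))) => (z : H)) hab
      exact Subtype.ext (Subtype.ext h11)
    have h5 : (if P then (B : ℝ)⁻¹ else 0) ≤ if OverFinite S' then (B : ℝ)⁻¹ else 0 := by
      by_cases hp : P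
      · have hO' : OverFinite S' := by
          rcases hPE hp with ⟨h6, h7⟩ | ⟨u, v, hu, hv, huv, h6, h7, h8⟩
          · exact Or.inl ⟨fun x y hxy => hfinE x y (h6 _ _ ((ha x y).2 hxy)), h7⟩
          · obtain ⟨x, hx⟩ := hr (Or.inr hu)
            obtain ⟨y, hy⟩ := hr (Or.inr hv)
            refine Or.inr ⟨x, y, (ha x y).1 (by rw [hx, hy]; exact huv), ?_, ?_, ?_⟩
            · exact hfinE x y (by rw [hx, hy]; exact h6)
            · have h := exists_stab_equiv hι he x
              rw [hx] at h
              obtain ⟨e, -⟩ := h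
              exact Infinite.of_injective e.symm e.symm.injective
            · have h := exists_stab_equiv hι he y
              rw [hy] at h
              obtain ⟨e, -⟩ := h
              exact Infinite.of_injective e.symm e.symm.injective
        rw [if_pos hp, if_pos hO']
      · rw [if_neg hp]
        split_ifs
        · exact hB0
        · exact le_rfl
    linarith

end Pool.Agent.Helper21.SG
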