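import Pool.Agent.Helper21.SG.A.Runs

/-! The weight of a group does not change under isomorphisms and conjugation. -/

namespace Pool.Agent.Helper21.SG

open SimpleGraph Function MulAction

variable {Γ : Type} [Group Γ] {K K' : Type} [Group K] [Group K']

theorem exists_lamW (γ : Γ) (ι : Type) [Fintype ι] :
    ∃ A : W2 Γ ι →L[ℝ] W2 Γ ι, Eqv A ∧ ∀ v i, A v i = lam γ (v i) :=
  OpV.pi (ev := fun v : W2 Γ ι => v) (φ := fun i v => lam γ (v i))
    fun i => (OpV.coord (ev := fun v : W2 Γ ι => v) i).lam γ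

theorem del_le_of_conj (φ : K →* K') (hφ : Surjective φ) {f : K →* Γ} {f' : K' →* Γ} (γ : Γ)
    (h : ∀ k, f' (φ k) = γ * f k * γ⁻¹) [Group.FG K] : del f' ≤ del f := by
  obtain ⟨n, s, hs⟩ := exists_gen (H := K)
  have hs' : Gen (fun i => φ (s i)) := by
    have h1 : (Set.range fun i => φ (s i)) = φ '' Set.range s := by
      rw [← Set.range_comp]
      rfl
    unfold Gen
    rw [h1, ← MonoidHom.map_closure, hs]
    exact Subgroup.map_top_of_surjective φ hφ
  rw [del_eq f' hs', del_eq f hs]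
  obtain ⟨A, hA, hA'⟩ := exists_lamW γ⁻¹ (Fin n)
  have h1 := dimV_le hA (inv_ZZ f' fun i => φ (s i)) (isClosed_ZZ f' hs') (N := ZZ f s) ?_
  · have h2 : ZZ f' (fun i => φ (s i)) ⊓ LinearMap.ker (A : W2 Γ (Fin n) →ₗ[ℝ] W2 Γ (Fin n)) = ⊥ := by
      rw [eq_bot_iff]
      rintro v ⟨-, hv⟩
      have h4 : A v = 0 := hv
      rw [Submodule.mem_bot]
      refine PiLp.ext fun i => ?_
      have h5 : lam γ⁻¹ (v i) = 0 := by
        rw [← hA', h4]
        rfl
      have h6 : lam γ (lam γ⁻¹ (v i)) = v i := by rw [← lam_mul, mul_inv_cancel, lam_one]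
      rw [← h6, h5, map_zero]
      rfl
    rw [h2, dimV_bot, add_zero] at h1
    exact h1
  · rintro v ⟨c, hc, hv⟩
    refine ⟨fun k => lam γ⁻¹ (c (φ k)), fun a b => ?_, fun i => ?_⟩
    · have h3 : γ⁻¹ * f' (φ a) = f a * γ⁻¹ := by
        rw [h]
        group
      show lam γ⁻¹ (c (φ (a * b))) = lam γ⁻¹ (c (φ a)) + lam (f a) (lam γ⁻¹ (c (φ b)))
      rw [map_mul, hc, map_add, ← lam_mul, ← lam_mul, h3]
    · rw [hA', hv]

theorem del_congr (e : K ≃* K') {f : K →* Γ} {f' : K' →* Γ} (γ : Γ)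
    (h : ∀ k, f' (e k) = γ * f k * γ⁻¹) [Group.FG K] : del f' = del f := by
  have : Group.FG K' := Group.fg_of_surjective (f := e.toMonoidHom) e.surjective
  refine le_antisymm (del_le_of_conj e.toMonoidHom e.surjective γ h) ?_
  refine del_le_of_conj e.symm.toMonoidHom e.symm.surjective γ⁻¹ fun k => ?_
  have h1 := h (e.symm k)
  rw [e.apply_symm_apply] at h1
  rw [h1]
  show f (e.symm k) = _
  group

theorem wt_congr (e : K ≃* K') {f : K →* Γ} {f' : K' →* Γ} (γ : Γ)
    (h : ∀ k, f' (e k) = γ * f k * γ⁻¹) [Group.FG K] : wt f' = wt f := by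
  unfold wt
  by_cases hK : Finite K
  · have hK' : Finite K' := Finite.of_equiv K e.toEquiv
    rw [if_pos hK, if_pos hK']
  · have hK' : ¬ Finite K' := fun h' => hK (Finite.of_equiv K' e.symm.toEquiv)
    rw [if_neg hK, if_neg hK', del_congr e γ h]

theorem wt_of_finVZ {f : K →* Γ} (hf : Injective f) (h : FinVZ K) : wt f = 0 := by
  have hfg := fg_finVZ K h
  unfold wt
  split_ifs with hK
  · rfl
  · have : Infinite K := not_finite_iff_infinite.1 hK
    have h1 := one_le_del hf
    have h2 := del_finVZ hf h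
    linarith

/-- The weight of a group with `d` generators is at most `d - 1`. -/
theorem wt_le_of_gen {f : K →* Γ} (hf : Injective f) {d : ℕ} (s : Fin d → K)
    (hs : Subgroup.closure (Set.range s) = ⊤) : wt f ≤ ((d - 1 : ℕ) : ℝ) := by
  have hs' : Gen s := hs
  have hfg : Group.FG K := Group.fg_iff.2 ⟨Set.range s, hs, Set.finite_range s⟩
  unfold wt
  split_ifs with hK
  · exact Nat.cast_nonneg _
  · have : Infinite K := not_finite_iff_infinite.1 hK
    have h1 := one_le_del hf
    have h2 := del_le_card f hs'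
    rw [Fintype.card_fin] at h2
    have h3 : 1 ≤ d := by
      have : (1 : ℝ) ≤ d := h1.trans h2
      exact_mod_cast this
    rw [Nat.cast_sub h3, Nat.cast_one]
    linarith

end Pool.Agent.Helper21.SG
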